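import Pool.Agent.MQG.StmtsU

set_option autoImplicit false

/-!
# Row UNX of squad MQG: a universal representation exists
-/

namespace Pool.Agent.MQG.H25

open Pool.Agent.MQG
open scoped InnerProductSpace InnerProduct Topology
open Complex Filter

/-- The norm of a unitary operator is at most one. -/
theorem norm_le_one_of_unitary {α : Type} {U : Op α} (h : U ∈ unitary (Op α)) : ‖U‖ ≤ 1 := by
  have h1 : ‖star U * U‖ = ‖U‖ * ‖U‖ := CStarRing.norm_star_mul_self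
  rw [(Unitary.mem_iff.mp h).1] at h1
  have h2 : ‖(1 : Op α)‖ ≤ 1 := ContinuousLinearMap.norm_id_le
  nlinarith [norm_nonneg U]

/-- The index type of the finite linear combinations of slices. -/
abbrev F (ι : Type) : Type := Σ n : ℕ, (Fin n → ℂ) × (Fin n → L2 ι) × (Fin n → L2 ι)

/-- The linear combination of the slices of `U`. -/
noncomputable def LC {ι κ : Type} (f : F ι) (U : Op (κ × ι)) : Op κ :=
  ∑ j, f.2.1 j • sl U (f.2.2.1 j) (f.2.2.2 j)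

theorem norm_LC_le {ι κ : Type} (f : F ι) (U : Op (κ × ι)) (hU : ‖U‖ ≤ 1) :
    ‖LC f U‖ ≤ ∑ j, ‖f.2.1 j‖ * (‖f.2.2.1 j‖ * ‖f.2.2.2 j‖) := by
  refine (norm_sum_le _ _).trans (Finset.sum_le_sum fun j _ => ?_)
  rw [norm_smul]
  refine mul_le_mul_of_nonneg_left ?_ (norm_nonneg _)
  refine (norm_sl_le U _ _).trans ?_
  rw [mul_assoc]
  exact mul_le_of_le_one_left (by positivity) hU

/-- The norms of the linear combination, for all adapted unitaries. -/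
def NS {ι : Type} (M : MU ι) (f : F ι) : Set ℝ :=
  {r : ℝ | ∃ (κ' : Type) (U : Op (κ' × ι)), Adapted M.W U ∧ r = ‖LC f U‖}

theorem bdd_NS {ι : Type} (M : MU ι) (f : F ι) : BddAbove (NS M f) := by
  refine ⟨∑ j, ‖f.2.1 j‖ * (‖f.2.2.1 j‖ * ‖f.2.2.2 j‖), ?_⟩
  rintro r ⟨κ', U, hU, rfl⟩
  exact norm_LC_le f U (norm_le_one_of_unitary hU.unit)

theorem nonempty_NS {ι : Type} (M : MU ι) (f : F ι) : (NS M f).Nonempty := by
  refine ⟨_, Unit, (1 : Op (Unit × ι)), ⟨one_mem _, ?_⟩, rfl⟩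
  rw [l12_one, l13_one, one_mul, one_mul, mul_one]

/-- A linear combination of direct sums is a direct sum. -/
theorem ds_LC (hdsa : DsaStmt) {P : Type} {κ : P → Type} {ι : Type} (S : L2 ι → L2 ι → Op (Σ p, κ p))
    (T : ∀ p, L2 ι → L2 ι → Op (κ p))
    (h : ∀ u y, IsDS (Equiv.refl (Σ p, κ p)) (S u y) fun p => T p u y)
    {n : ℕ} (c : Fin n → ℂ) (u y : Fin n → L2 ι) (s : Finset (Fin n)) :
    IsDS (Equiv.refl (Σ p, κ p)) (∑ j ∈ s, c j • S (u j) (y j))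
      (fun p => ∑ j ∈ s, c j • T p (u j) (y j)) := by
  classical
  induction s using Finset.induction_on with
  | empty =>
    simp only [Finset.sum_empty]
    have h0 := h 0 0
    exact (hdsa _ _ _ _ _ _ _ _ h0 h0).2.2.2.2.1
  | insert j s hj ih =>
    simp only [Finset.sum_insert hj]
    have h1 := (hdsa _ _ _ _ _ _ _ _ (h (u j) (y j)) (h (u j) (y j))).2.2.1 (c j)
    exact (hdsa _ _ _ _ _ _ _ _ h1 ih).2.1

/-- Row UNX. -/
theorem unx (hdsx : DsxStmt) (hdsa : DsaStmt) (hdsn : DsnStmt) (hdss : DssStmt) (hdad : DadStmt)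
    (hlft : LftStmt) : UnxStmt := by
  intro ι M
  have hex : ∀ p : F ι × ℕ, ∃ (κ' : Type) (U : Op (κ' × ι)), Adapted M.W U ∧
      sSup (NS M p.1) - 1 / ((p.2 : ℝ) + 1) < ‖LC p.1 U‖ := by
    intro p
    have hlt : sSup (NS M p.1) - 1 / ((p.2 : ℝ) + 1) < sSup (NS M p.1) := by
      have : (0 : ℝ) < 1 / ((p.2 : ℝ) + 1) := by positivity
      linarith
    obtain ⟨r, ⟨κ', U, hU, rfl⟩, hr⟩ := exists_lt_of_lt_csSup (nonempty_NS M p.1) hlt
    exact ⟨κ', U, hU, hr⟩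
  choose κ U hU hlt using hex
  obtain ⟨WW, hW1, hDS⟩ := hdsx (F ι × ℕ) ((Σ p, κ p) × ι) (fun p => κ p × ι) (es κ) U 1 zero_le_one
    (fun p => norm_le_one_of_unitary (hU p).unit)
  have hadW : Adapted M.W WW := hdad _ _ _ _ _ _ hDS hU
  refine ⟨_, WW, hadW, fun κ' V hV => hlft ι M _ κ' WW V hadW hV ?_⟩
  intro n c u y
  -- comparison with one part
  have hpart : ∀ p : F ι × ℕ, ‖LC ⟨n, c, u, y⟩ (U p)‖ ≤ ‖LC ⟨n, c, u, y⟩ WW‖ := by
    intro p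
    have h1 := ds_LC hdsa (fun u y => sl WW u y) (fun p u y => sl (U p) u y)
      (fun u y => hdss _ _ _ _ _ hDS u y) c u y Finset.univ
    exact (hdsn _ _ _ _ _ _ h1).2.1 p
  change ‖LC ⟨n, c, u, y⟩ V‖ ≤ ‖LC ⟨n, c, u, y⟩ WW‖
  have hm : ∀ m : ℕ, ‖LC ⟨n, c, u, y⟩ V‖ ≤ ‖LC ⟨n, c, u, y⟩ WW‖ + 1 / ((m : ℝ) + 1) := by
    intro m
    have h1 : ‖LC ⟨n, c, u, y⟩ V‖ ≤ sSup (NS M ⟨n, c, u, y⟩) :=
      le_csSup (bdd_NS M _) ⟨κ', V, hV, rfl⟩
    have h2 := hlt (⟨n, c, u, y⟩, m)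
    have h3 := hpart (⟨n, c, u, y⟩, m)
    dsimp only at h2 h3
    linarith
  have hlim : Tendsto (fun m : ℕ => ‖LC ⟨n, c, u, y⟩ WW‖ + 1 / ((m : ℝ) + 1)) atTop
      (𝓝 (‖LC ⟨n, c, u, y⟩ WW‖ + 0)) :=
    tendsto_const_nhds.add tendsto_one_div_add_atTop_nhds_zero_nat
  rw [add_zero] at hlim
  exact ge_of_tendsto' hlim hm

end Pool.Agent.MQG.H25
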